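import Pool.Agent.H36.Wall.Main

/-!
# MP_f34352_gt: a supercompactum that is not a regular Wallman compactum
-/

set_option autoImplicit false

open scoped Topology

namespace Pool.Agent.Results.MP_f34352_gt.GatedCube

/-- `P` is a closed subbase of `X`: its members are closed, and every closed set is an intersection of finite unions
of members of `P`. -/
def IsClosedSubbase {X : Type} [TopologicalSpace X] (P : Set (Set X)) : Prop :=
  (∀ A ∈ P, IsClosed A) ∧
  ∀ F : Set X, IsClosed F → ∃ 𝒞 : Set (Set X),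
    (∀ C ∈ 𝒞, ∃ s : Set (Set X), s ⊆ P ∧ s.Finite ∧ C = ⋃₀ s) ∧ F = ⋂₀ 𝒞

/-- `P` is binary: every linked subfamily (any two members meet) has nonempty intersection. -/
def IsBinary {X : Type} (P : Set (Set X)) : Prop :=
  ∀ L : Set (Set X), L ⊆ P → (∀ A ∈ L, ∀ B ∈ L, (A ∩ B).Nonempty) → (⋂₀ L).Nonempty

/-- The sets in `r(P)`, the smallest family containing `P` and closed under unions and intersections of two
members. -/
inductive InRing {X : Type} (P : Set (Set X)) : Set X → Prop
  | basic (A : Set X) : A ∈ P → InRing P A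
  | union (A B : Set X) : InRing P A → InRing P B → InRing P (A ∪ B)
  | inter (A B : Set X) : InRing P A → InRing P B → InRing P (A ∩ B)

/-- `X` is supercompact: it has a binary closed subbase. -/
def IsSupercompact (X : Type) [TopologicalSpace X] : Prop :=
  ∃ P : Set (Set X), IsClosedSubbase P ∧ IsBinary P

/-- `X` has a closed subbase `P` such that every member of `r(P)` is canonical closed (the closure of an open
set). -/
def IsRegularWallman (X : Type) [TopologicalSpace X] : Prop :=
  ∃ P : Set (Set X), IsClosedSubbase P ∧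
    ∀ A : Set X, InRing P A → ∃ U : Set X, IsOpen U ∧ A = closure U

/-- The gated cube over `I`: the set of all pairs `(z, w)`, where `z i ∈ [0,1]` for `i ∈ I` and where each
`w i j` (`i, j ∈ I`) is a set of at most one element of `[0,1]` (given by its indicator function), such that
`z i ≤ a` or `z j ≤ a` whenever `a` belongs to `w i j`.  It is a subspace of a product of intervals and of
two-point spaces. -/
def gatedCube (I : Type) :
    Set ((I → Set.Icc (0 : ℝ) 1) × (I → I → Set.Icc (0 : ℝ) 1 → Bool)) :=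
  {x | (∀ i j a b, x.2 i j a = true → x.2 i j b = true → a = b) ∧
    ∀ i j a, x.2 i j a = true → x.1 i ≤ a ∨ x.1 j ≤ a}

theorem subbase_of_generate {X : Type} [t : TopologicalSpace X] (P : Set (Set X))
    (hcl : ∀ A ∈ P, IsClosed A)
    (ht : t = TopologicalSpace.generateFrom {U : Set X | Uᶜ ∈ P}) : IsClosedSubbase P := by
  refine ⟨hcl, fun F hF => ?_⟩
  have hb := TopologicalSpace.isTopologicalBasis_of_subbasis ht
  refine ⟨{C | (∃ s : Set (Set X), s ⊆ P ∧ s.Finite ∧ C = ⋃₀ s) ∧ F ⊆ C}, fun C hC => hC.1, ?_⟩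
  apply Set.Subset.antisymm
  · intro x hx C hC
    exact hC.2 hx
  · intro x hx
    by_contra hxF
    obtain ⟨V, ⟨f, ⟨hf, hfs⟩, rfl⟩, hxV, hVF⟩ :=
      hb.exists_subset_of_mem_open (show x ∈ Fᶜ from hxF) hF.isOpen_compl
    have hmem : (⋃₀ ((fun U => Uᶜ) '' f)) ∈
        {C | (∃ s : Set (Set X), s ⊆ P ∧ s.Finite ∧ C = ⋃₀ s) ∧ F ⊆ C} := by
      refine ⟨⟨(fun U => Uᶜ) '' f, ?_, hf.image _, rfl⟩, ?_⟩
      · rintro _ ⟨U, hU, rfl⟩
        exact hfs hU
      · intro y hy
        by_contra hcon
        apply hVF _ hy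
        intro U hU
        by_contra hyU
        exact hcon ⟨Uᶜ, ⟨U, hU, rfl⟩, hyU⟩
    obtain ⟨_, ⟨U, hU, rfl⟩, hxU⟩ := hx _ hmem
    exact hxU (hxV U hU)

theorem generate_of_subbase {X : Type} [t : TopologicalSpace X] (P : Set (Set X))
    (h : IsClosedSubbase P) : t = TopologicalSpace.generateFrom {U : Set X | Uᶜ ∈ P} := by
  apply le_antisymm
  · apply le_generateFrom
    intro U hU
    have := (h.1 _ hU).isOpen_compl
    rwa [compl_compl] at this
  · intro U hU
    obtain ⟨𝒞, h1, h2⟩ := h.2 Uᶜ (isClosed_compl_iff.2 hU)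
    have e : U = ⋃₀ ((fun C => Cᶜ) '' 𝒞) := by
      rw [← Set.compl_sInter, ← h2, compl_compl]
    rw [e]
    apply TopologicalSpace.GenerateOpen.sUnion
    rintro _ ⟨C, hC, rfl⟩
    obtain ⟨s, hs, hsf, rfl⟩ := h1 C hC
    have : IsOpen[TopologicalSpace.generateFrom {U : Set X | Uᶜ ∈ P}] (⋂ A ∈ s, Aᶜ) := by
      refine @Set.Finite.isOpen_biInter X (Set X)
        (TopologicalSpace.generateFrom {U : Set X | Uᶜ ∈ P}) s (fun A => Aᶜ) hsf ?_
      intro A hA
      apply TopologicalSpace.isOpen_generateFrom_of_mem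
      show Aᶜᶜ ∈ P
      rw [compl_compl]
      exact hs hA
    have e2 : (⋃₀ s)ᶜ = ⋂ A ∈ s, Aᶜ := by
      rw [Set.sUnion_eq_biUnion, Set.compl_iUnion₂]
    show IsOpen[TopologicalSpace.generateFrom {U : Set X | Uᶜ ∈ P}] ((⋃₀ s)ᶜ)
    rw [e2]
    exact this

/-- The gated cube over the index set `Set (Set (Set ℝ))` (of cardinality `2^(2^(2^𝔠))`) is compact, Hausdorff and supercompact, but it is
not a regular Wallman compactum.  (All gated cubes are supercompacta.) -/
theorem result :
    (∀ I : Type, CompactSpace (gatedCube I) ∧ T2Space (gatedCube I) ∧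
      IsSupercompact (gatedCube I)) ∧
    ¬ IsRegularWallman (gatedCube (Set (Set (Set ℝ)))) := by
  refine ⟨fun I => ⟨?_, ?_, ?_⟩, ?_⟩
  · exact (inferInstance : CompactSpace (Pool.Agent.H36.Wall.X I))
  · infer_instance
  · exact ⟨Pool.Agent.H36.Wall.PB I,
      subbase_of_generate (X := Pool.Agent.H36.Wall.X I) (Pool.Agent.H36.Wall.PB I)
        (fun A hA => Pool.Agent.H36.Wall.isClosed_of_mem_PB hA)
        (Pool.Agent.H36.Wall.top_eq_PB I),
      Pool.Agent.H36.Wall.binary_PB I⟩
  · rintro ⟨P, hP, hreg⟩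
    apply Pool.Agent.H36.Wall.not_regular_wallman
    refine ⟨P, hP.1, generate_of_subbase P hP, ?_⟩
    intro A hA
    have hr : InRing P A := hA {A | InRing P A} (fun B hB => InRing.basic B hB)
      (fun B hB C hC => InRing.union B C hB hC) (fun B hB C hC => InRing.inter B C hB hC)
    obtain ⟨U, hU, hAU⟩ := hreg A hr
    apply Set.Subset.antisymm
    · rw [hAU]
      exact closure_minimal interior_subset isClosed_closure
    · have h1 : U ⊆ interior A := interior_maximal (by rw [hAU]; exact subset_closure) hU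
      exact (le_of_eq hAU).trans (closure_mono h1)

end Pool.Agent.Results.MP_f34352_gt.GatedCube
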